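import Mathlib

/-!
# The graph of a formula: combinatorics

For a CNF formula `φ` (a list of clauses, a clause is a list of literals `(sign, variable)`) and a
bound `N` for the variables, the graph `ad φ` has for each variable `i < N` a path
`(0,i) - (1,i) - (2,i)` and for each clause `j` (without complementary literals) a vertex `(3,j)`;
the clause vertices are pairwise adjacent, and a clause vertex is adjacent to `(0,i)` if it
contains the literal `i` and to `(2,i)` if it contains the negation of `i`.
-/

namespace Pool.Agent.H257R2.EAF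

/-- formulas: lists of clauses, a literal is a sign and a variable -/
abbrev Fm := List (List (Bool × ℕ))

/-- the clause has no complementary pair of literals with variable smaller than `N` -/
def nt (N : ℕ) (c : List (Bool × ℕ)) : Bool :=
  c.all fun l => !(decide (l.2 < N)) || !(decide ((!l.1, l.2) ∈ c))

/-- one half of the adjacency -/
def ad0 (φ : Fm) (a b : ℕ × ℕ) : Bool :=
  (decide (a.1 = 0) && (decide (b.1 = 1) && decide (a.2 = b.2))) ||
  (decide (a.1 = 1) && (decide (b.1 = 2) && decide (a.2 = b.2))) ||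
  (decide (a.1 = 3) && (decide (b.1 = 3) && !(decide (a.2 = b.2)))) ||
  (decide (a.1 = 3) && (decide (b.1 = 0) && decide ((true, b.2) ∈ φ.getD a.2 []))) ||
  (decide (a.1 = 3) && (decide (b.1 = 2) && decide ((false, b.2) ∈ φ.getD a.2 [])))

/-- the adjacency of the graph whose holes are pentagons -/
def ad (φ : Fm) (a b : ℕ × ℕ) : Bool := ad0 φ a b || ad0 φ b a

/-- the adjacency of the complement -/
def co (φ : Fm) (a b : ℕ × ℕ) : Bool := !(decide (a = b)) && !(ad φ a b)

/-- the list of vertices -/
def vs (φ : Fm) (N : ℕ) : List (ℕ × ℕ) :=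
  (List.range N).map (fun i => (0, i)) ++ ((List.range N).map (fun i => (1, i)) ++
  ((List.range N).map (fun i => (2, i)) ++
  ((List.range φ.length).filter (fun j => nt N (φ.getD j []))).map (fun j => (3, j))))

theorem mem_vs {φ : Fm} {N : ℕ} {z : ℕ × ℕ} :
    z ∈ vs φ N ↔ (z.1 < 3 ∧ z.2 < N) ∨ (z.1 = 3 ∧ z.2 < φ.length ∧ nt N (φ.getD z.2 []) = true) := by
  obtain ⟨t, i⟩ := z
  simp only [vs, List.mem_append, List.mem_map, List.mem_range, List.mem_filter, Prod.mk.injEq]
  constructor
  · rintro (⟨a, h, rfl, rfl⟩ | ⟨a, h, rfl, rfl⟩ | ⟨a, h, rfl, rfl⟩ | ⟨a, ⟨h, h'⟩, rfl, rfl⟩)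
    · exact Or.inl ⟨by simp, h⟩
    · exact Or.inl ⟨by simp, h⟩
    · exact Or.inl ⟨by simp, h⟩
    · exact Or.inr ⟨rfl, h, h'⟩
  · rintro (⟨h, h'⟩ | ⟨rfl, h, h'⟩)
    · have : t = 0 ∨ t = 1 ∨ t = 2 := by omega
      rcases this with rfl | rfl | rfl
      · exact Or.inl ⟨i, h', rfl, rfl⟩
      · exact Or.inr (Or.inl ⟨i, h', rfl, rfl⟩)
      · exact Or.inr (Or.inr (Or.inl ⟨i, h', rfl, rfl⟩))
    · exact Or.inr (Or.inr (Or.inr ⟨i, ⟨h, h'⟩, rfl, rfl⟩))

theorem ad_symm (φ : Fm) (a b : ℕ × ℕ) : ad φ a b = ad φ b a := by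
  unfold ad; exact Bool.or_comm _ _

theorem co_symm (φ : Fm) (a b : ℕ × ℕ) : co φ a b = co φ b a := by
  unfold co; rw [ad_symm]; simp only [eq_comm]

theorem co_irrefl (φ : Fm) (a : ℕ × ℕ) : co φ a a = false := by
  unfold co; simp

theorem ad_irrefl {φ : Fm} {N : ℕ} {z : ℕ × ℕ} (hz : z ∈ vs φ N) : ad φ z z = false := by
  have h := mem_vs.1 hz
  obtain ⟨t, i⟩ := z
  simp only at h
  have ht : t = 0 ∨ t = 1 ∨ t = 2 ∨ t = 3 := by omega
  rcases ht with rfl | rfl | rfl | rfl <;> simp [ad, ad0]

/-- neighbours of a middle vertex -/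
theorem ad_one {φ : Fm} {i : ℕ} {w : ℕ × ℕ} (h : ad φ (1, i) w = true) :
    w = (0, i) ∨ w = (2, i) := by
  obtain ⟨t, k⟩ := w
  simp only [ad, ad0, Bool.or_eq_true, Bool.and_eq_true, decide_eq_true_eq, Bool.not_eq_true',
    decide_eq_false_iff_not, Prod.mk.injEq] at h ⊢
  omega

/-- neighbours of a positive vertex -/
theorem ad_zero {φ : Fm} {i : ℕ} {w : ℕ × ℕ} (h : ad φ (0, i) w = true) :
    w = (1, i) ∨ (w.1 = 3 ∧ (true, i) ∈ φ.getD w.2 []) := by
  obtain ⟨t, k⟩ := w
  simp only [ad, ad0, Bool.or_eq_true, Bool.and_eq_true, decide_eq_true_eq, Bool.not_eq_true',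
    decide_eq_false_iff_not, Prod.mk.injEq] at h ⊢
  tauto

/-- neighbours of a negative vertex -/
theorem ad_two {φ : Fm} {i : ℕ} {w : ℕ × ℕ} (h : ad φ (2, i) w = true) :
    w = (1, i) ∨ (w.1 = 3 ∧ (false, i) ∈ φ.getD w.2 []) := by
  obtain ⟨t, k⟩ := w
  simp only [ad, ad0, Bool.or_eq_true, Bool.and_eq_true, decide_eq_true_eq, Bool.not_eq_true',
    decide_eq_false_iff_not, Prod.mk.injEq] at h ⊢
  tauto

/-- the clause vertices form a clique -/
theorem ad_three {φ : Fm} {z w : ℕ × ℕ} (h : z.1 = 3) (h' : w.1 = 3) (hne : z ≠ w) :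
    ad φ z w = true := by
  obtain ⟨t, k⟩ := z
  obtain ⟨t', k'⟩ := w
  simp only at h h'
  subst h; subst h'
  have : k ≠ k' := fun h => hne (by rw [h])
  simp [ad, ad0, this]

theorem ad_clause_pos {φ : Fm} {j i : ℕ} (h : (true, i) ∈ φ.getD j []) :
    ad φ (3, j) (0, i) = true := by
  simp only [ad, ad0, Bool.or_eq_true, Bool.and_eq_true, decide_eq_true_eq, Bool.not_eq_true',
    decide_eq_false_iff_not]
  tauto

theorem ad_clause_neg {φ : Fm} {j i : ℕ} (h : (false, i) ∈ φ.getD j []) :
    ad φ (3, j) (2, i) = true := by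
  simp only [ad, ad0, Bool.or_eq_true, Bool.and_eq_true, decide_eq_true_eq, Bool.not_eq_true',
    decide_eq_false_iff_not]
  tauto

theorem ad_01 (φ : Fm) (i : ℕ) : ad φ (0, i) (1, i) = true := by simp [ad, ad0]

theorem ad_12 (φ : Fm) (i : ℕ) : ad φ (1, i) (2, i) = true := by simp [ad, ad0]

/-- a clause vertex is not adjacent to both literals -/
theorem nt_excl {N : ℕ} {c : List (Bool × ℕ)} (h : nt N c = true) {i : ℕ} (hi : i < N)
    (h1 : (true, i) ∈ c) (h2 : (false, i) ∈ c) : False := by
  unfold nt at h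
  rw [List.all_eq_true] at h
  have := h _ h1
  simp [hi, h2] at this

/-! ### Holes -/

/-- successor on the cycle `0, ..., n - 1` -/
def nx (n i : ℕ) : ℕ := if i + 1 = n then 0 else i + 1

/-- predecessor on the cycle `0, ..., n - 1` -/
def pv (n i : ℕ) : ℕ := if i = 0 then n - 1 else i - 1

theorem nx_cases {n i : ℕ} (h : i < n) :
    (i + 1 = n ∧ nx n i = 0) ∨ (i + 1 < n ∧ nx n i = i + 1) := by
  unfold nx; split_ifs <;> omega

theorem pv_cases {n i : ℕ} (h : i < n) :
    (i = 0 ∧ pv n i + 1 = n) ∨ (0 < i ∧ pv n i + 1 = i) := by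
  unfold pv; split_ifs <;> omega

theorem sub_val_one {n : ℕ} (hn : 3 ≤ n) (a b : Fin n) :
    (a - b).val = 1 ↔ (a : ℕ) = nx n b := by
  have ha := a.isLt
  have hb := b.isLt
  unfold nx
  rcases le_or_gt b a with h | h
  · rw [Fin.sub_val_of_le h]
    have : (b : ℕ) ≤ a := h
    split_ifs <;> omega
  · rw [Fin.coe_sub_iff_lt.2 h]
    have : (a : ℕ) < b := h
    split_ifs <;> omega

theorem cycleGraph_adj_nx {n : ℕ} (hn : 3 ≤ n) (a b : Fin n) :
    (SimpleGraph.cycleGraph n).Adj a b ↔ ((a : ℕ) = nx n b ∨ (b : ℕ) = nx n a) := by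
  rw [SimpleGraph.cycleGraph_adj', sub_val_one hn, sub_val_one hn]

/-- **All holes of the graph are pentagons.** -/
theorem hole_five {φ : Fm} {N n : ℕ} (hn : 4 ≤ n) (g : ℕ → ℕ × ℕ)
    (hg : ∀ i < n, g i ∈ vs φ N) (hinj : ∀ i < n, ∀ j < n, g i = g j → i = j)
    (had : ∀ i < n, ∀ j < n, ad φ (g i) (g j) = true ↔ (i = nx n j ∨ j = nx n i)) : n = 5 := by
  have hnx : ∀ i < n, nx n i < n := by
    intro i hi; unfold nx; split_ifs <;> omega
  have hpv : ∀ i < n, pv n i < n := by
    intro i hi; unfold pv; split_ifs <;> omega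
  have hanx : ∀ i < n, ad φ (g i) (g (nx n i)) = true := fun i hi =>
    (had i hi _ (hnx i hi)).2 (Or.inr rfl)
  have hapv : ∀ i < n, ad φ (g i) (g (pv n i)) = true := fun i hi => by
    refine (had i hi _ (hpv i hi)).2 (Or.inl ?_)
    unfold pv nx
    split_ifs <;> omega
  have htag : ∀ i < n, (g i).1 = 0 ∨ (g i).1 = 1 ∨ (g i).1 = 2 ∨ (g i).1 = 3 := by
    intro i hi
    rcases mem_vs.1 (hg i hi) with h | h <;> omega
  -- two literal vertices of the same variable
  have aux : ∀ i < N, ∀ p p2 q q2, p < n → p2 < n → q < n → q2 < n → g p = (0, i) →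
      g q = (2, i) → ad φ (g p) (g p2) = true → ad φ (g q) (g q2) = true → g p2 ≠ (1, i) →
      g q2 ≠ (1, i) → (p2 = nx n q2 ∨ q2 = nx n p2) := by
    intro i hi p p2 q q2 _ hp2 _ hq2 h0 h2 ha hb hne hne'
    rw [h0] at ha
    rw [h2] at hb
    rcases ad_zero ha with h | ⟨h3, hl⟩
    · exact absurd h hne
    rcases ad_two hb with h | ⟨h3', hl'⟩
    · exact absurd h hne'
    have hne2 : g p2 ≠ g q2 := by
      intro he
      rw [← he] at hl'
      rcases mem_vs.1 (hg p2 hp2) with h | ⟨_, _, h⟩
      · omega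
      · exact nt_excl h hi hl hl'
    exact (had p2 hp2 q2 hq2).1 (ad_three h3 h3' hne2)
  -- a middle vertex
  have key1 : ∀ j < n, ∀ i, g j = (1, i) → n = 5 := by
    intro j hj i hji
    have hi : i < N := by
      rcases mem_vs.1 (hg j hj) with h | ⟨h, _⟩
      · rw [hji] at h; exact h.2
      · rw [hji] at h; simp at h
    have hp := hnx j hj
    have hq := hpv j hj
    have hp2 := hnx _ hp
    have hq2 := hpv _ hq
    have c1 := nx_cases hj
    have c2 := nx_cases hp
    have c3 := pv_cases hj
    have c4 := pv_cases hq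
    have c5 := nx_cases hp2
    have c6 := nx_cases hq2
    have e1 : g (nx n (nx n j)) ≠ (1, i) := by
      rw [← hji]
      intro h
      have := hinj _ hp2 _ hj h
      omega
    have e2 : g (pv n (pv n j)) ≠ (1, i) := by
      rw [← hji]
      intro h
      have := hinj _ hq2 _ hj h
      omega
    have hne : g (nx n j) ≠ g (pv n j) := by
      intro h
      have := hinj _ hp _ hq h
      omega
    have hA := hanx j hj
    have hB := hapv j hj
    rw [hji] at hA hB
    have hfin : nx n (nx n j) = nx n (pv n (pv n j)) ∨ pv n (pv n j) = nx n (nx n (nx n j)) →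
        n = 5 := by
      intro h
      omega
    rcases ad_one hA with h | h <;> rcases ad_one hB with h' | h'
    · exact absurd (h.trans h'.symm) hne
    · exact hfin (aux i hi _ _ _ _ hp hp2 hq hq2 h h' (hanx _ hp) (hapv _ hq) e1 e2)
    · exact hfin (aux i hi _ _ _ _ hq hq2 hp hp2 h' h (hapv _ hq) (hanx _ hp) e2 e1).symm
    · exact absurd (h.trans h'.symm) hne
  by_contra hn5
  have hno1 : ∀ j < n, (g j).1 ≠ 1 := by
    intro j hj h
    exact hn5 (key1 j hj (g j).2 (by rw [← h]))
  -- two clause vertices in positions with a common neighbour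
  have key3 : ∀ j < n, (g (nx n j)).1 = 3 → (g (pv n j)).1 = 3 → False := by
    intro j hj h h'
    have c1 := nx_cases hj
    have c2 := nx_cases (hnx j hj)
    have c3 := pv_cases hj
    have c4 := nx_cases (hpv j hj)
    have hne : g (nx n j) ≠ g (pv n j) := by
      intro h
      have := hinj _ (hnx j hj) _ (hpv j hj) h
      omega
    have := (had _ (hnx j hj) _ (hpv j hj)).1 (ad_three h h' hne)
    omega
  have key0 : ∀ j < n, (g j).1 = 3 := by
    intro j hj
    rcases htag j hj with h | h | h | h
    · exfalso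
      have e : g j = (0, (g j).2) := by rw [← h]
      have hA := hanx j hj
      have hB := hapv j hj
      rw [e] at hA hB
      refine key3 j hj ?_ ?_
      · rcases ad_zero hA with h1 | h1
        · exact absurd (by rw [h1]) (hno1 _ (hnx j hj))
        · exact h1.1
      · rcases ad_zero hB with h1 | h1
        · exact absurd (by rw [h1]) (hno1 _ (hpv j hj))
        · exact h1.1
    · exact absurd h (hno1 j hj)
    · exfalso
      have e : g j = (2, (g j).2) := by rw [← h]
      have hA := hanx j hj
      have hB := hapv j hj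
      rw [e] at hA hB
      refine key3 j hj ?_ ?_
      · rcases ad_two hA with h1 | h1
        · exact absurd (by rw [h1]) (hno1 _ (hnx j hj))
        · exact h1.1
      · rcases ad_two hB with h1 | h1
        · exact absurd (by rw [h1]) (hno1 _ (hpv j hj))
        · exact h1.1
    · exact h
  exact key3 0 (by omega) (key0 _ (hnx 0 (by omega))) (key0 _ (hpv 0 (by omega)))

/-! ### Satisfiability and colourings of the complement -/

/-- bounded satisfiability -/
def Sat (φ : Fm) (N : ℕ) : Prop :=
  ∃ σ : ℕ → Bool, ∀ c ∈ φ, ∃ l ∈ c, l.2 < N ∧ σ l.2 = l.1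

/-- clauses with complementary literals are satisfied by every assignment -/
theorem sat_of_not_nt {N : ℕ} {c : List (Bool × ℕ)} (h : nt N c = false) (σ : ℕ → Bool) :
    ∃ l ∈ c, l.2 < N ∧ σ l.2 = l.1 := by
  unfold nt at h
  rw [List.all_eq_false] at h
  obtain ⟨l, hl, h⟩ := h
  simp only [Bool.or_eq_true, Bool.not_eq_true', decide_eq_false_iff_not, not_or, not_not] at h
  rcases hσ : σ l.2 with _ | _
  · rcases hl1 : l.1 with _ | _
    · exact ⟨l, hl, h.1, hσ.trans hl1.symm⟩
    · refine ⟨_, h.2, h.1, ?_⟩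
      simp [hσ, hl1]
  · rcases hl1 : l.1 with _ | _
    · refine ⟨_, h.2, h.1, ?_⟩
      simp [hσ, hl1]
    · exact ⟨l, hl, h.1, hσ.trans hl1.symm⟩

theorem sat_iff (φ : Fm) (N : ℕ) : Sat φ N ↔ ∃ σ : ℕ → Bool, ∀ j < φ.length,
    nt N (φ.getD j []) = true → ∃ l ∈ φ.getD j [], l.2 < N ∧ σ l.2 = l.1 := by
  unfold Sat
  refine exists_congr fun σ => ?_
  constructor
  · intro h j hj _
    refine h _ ?_
    rw [List.getD_eq_getElem?_getD, List.getElem?_eq_getElem hj]
    exact List.getElem_mem hj
  · intro h c hc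
    by_cases hnt : nt N c = true
    · obtain ⟨j, hj, rfl⟩ := List.getElem_of_mem hc
      have e : φ.getD j [] = φ[j] := by
        rw [List.getD_eq_getElem?_getD, List.getElem?_eq_getElem hj]; rfl
      have := h j hj (by rw [e]; exact hnt)
      rwa [e] at this
    · exact sat_of_not_nt (by simpa using hnt) σ

/-- From a satisfying assignment, a colouring of the complement with `2 N` colours. -/
theorem colour_of_sat {φ : Fm} {N : ℕ} (h : Sat φ N) :
    ∃ c : ℕ × ℕ → ℕ, (∀ z ∈ vs φ N, c z < 2 * N) ∧
      ∀ z ∈ vs φ N, ∀ w ∈ vs φ N, co φ z w = true → c z ≠ c w := by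
  rw [sat_iff] at h
  obtain ⟨σ, hσ⟩ := h
  choose! l hl hlN hσl using hσ
  refine ⟨fun z => if z.1 = 0 then 2 * z.2 else if z.1 = 1 then
    (if σ z.2 then 2 * z.2 + 1 else 2 * z.2) else if z.1 = 2 then 2 * z.2 + 1 else
    (if (l z.2).1 then 2 * (l z.2).2 else 2 * (l z.2).2 + 1), ?_, ?_⟩
  · intro z hz
    rcases mem_vs.1 hz with ⟨h1, h2⟩ | ⟨h1, h2, h3⟩
    · simp only
      split_ifs <;> omega
    · have := hlN z.2 h2 h3
      simp only [h1]
      simp only [OfNat.ofNat_ne_zero, ↓reduceIte, OfNat.ofNat_ne_one, Nat.reduceEqDiff]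
      split_ifs <;> omega
  · intro z hz w hw hco hc
    unfold co at hco
    simp only [Bool.and_eq_true, Bool.not_eq_true', decide_eq_false_iff_not] at hco
    obtain ⟨hne, had⟩ := hco
    have had' : ad φ w z = false := by rw [ad_symm]; exact had
    obtain ⟨t, a⟩ := z
    obtain ⟨s, b⟩ := w
    have hz' := mem_vs.1 hz
    have hw' := mem_vs.1 hw
    simp only at hz' hw' hc
    have ht : t = 0 ∨ t = 1 ∨ t = 2 ∨ t = 3 := by omega
    have hs : s = 0 ∨ s = 1 ∨ s = 2 ∨ s = 3 := by omega
    -- clause vertices against the others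
    have hcl : ∀ j i : ℕ, j < φ.length → nt N (φ.getD j []) = true → i < N →
        ((if (l j).1 then 2 * (l j).2 else 2 * (l j).2 + 1) = 2 * i → ad φ (3, j) (0, i) = true) ∧
        ((if (l j).1 then 2 * (l j).2 else 2 * (l j).2 + 1) = 2 * i + 1 →
          ad φ (3, j) (2, i) = true) ∧
        ((if (l j).1 then 2 * (l j).2 else 2 * (l j).2 + 1) ≠
          (if σ i then 2 * i + 1 else 2 * i)) := by
      intro j i hj hnt hi
      have h1 := hl j hj hnt
      have h2 := hσl j hj hnt
      rcases hlj : l j with ⟨s, v⟩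
      rw [hlj] at h1 h2
      cases s
      · simp only [Bool.false_eq_true, ↓reduceIte]
        refine ⟨fun h => by omega, fun h => ?_, fun h => ?_⟩
        · have : v = i := by omega
          subst this
          exact ad_clause_neg h1
        · split_ifs at h with h3
          · have : v = i := by omega
            subst this
            simp only at h2
            rw [h2] at h3
            exact absurd h3 (by simp)
          · omega
      · simp only [↓reduceIte]
        refine ⟨fun h => ?_, fun h => by omega, fun h => ?_⟩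
        · have : v = i := by omega
          subst this
          exact ad_clause_pos h1
        · split_ifs at h with h3
          · omega
          · have : v = i := by omega
            subst this
            exact h3 h2
    rcases ht with rfl | rfl | rfl | rfl <;> rcases hs with rfl | rfl | rfl | rfl
    all_goals simp only [OfNat.ofNat_ne_zero, OfNat.ofNat_ne_one, Nat.reduceEqDiff,
      ↓reduceIte, one_ne_zero] at hc
    · exact hne (by rw [show a = b by omega])
    · have : a = b := by split_ifs at hc <;> omega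
      subst this
      rw [ad_01] at had; simp at had
    · omega
    · have h3 : b < φ.length ∧ nt N (φ.getD b []) = true := by
        rcases hw' with h | h
        · omega
        · exact h.2
      have ha : a < N := by omega
      have := (hcl b a h3.1 h3.2 ha).1 hc.symm
      rw [had'] at this; simp at this
    · have : a = b := by split_ifs at hc <;> omega
      subst this
      rw [ad_01] at had'; simp at had'
    · exact hne (by rw [show a = b by split_ifs at hc <;> omega])
    · have : a = b := by split_ifs at hc <;> omega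
      subst this
      rw [ad_12] at had; simp at had
    · have h3 : b < φ.length ∧ nt N (φ.getD b []) = true := by
        rcases hw' with h | h
        · omega
        · exact h.2
      have ha : a < N := by omega
      exact (hcl b a h3.1 h3.2 ha).2.2 hc.symm
    · omega
    · have : a = b := by split_ifs at hc <;> omega
      subst this
      rw [ad_12] at had'; simp at had'
    · exact hne (by rw [show a = b by omega])
    · have h3 : b < φ.length ∧ nt N (φ.getD b []) = true := by
        rcases hw' with h | h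
        · omega
        · exact h.2
      have ha : a < N := by omega
      have := (hcl b a h3.1 h3.2 ha).2.1 hc.symm
      rw [had'] at this; simp at this
    · have h3 : a < φ.length ∧ nt N (φ.getD a []) = true := by
        rcases hz' with h | h
        · omega
        · exact h.2
      have hb : b < N := by omega
      have := (hcl a b h3.1 h3.2 hb).1 hc
      rw [had] at this; simp at this
    · have h3 : a < φ.length ∧ nt N (φ.getD a []) = true := by
        rcases hz' with h | h
        · omega
        · exact h.2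
      have hb : b < N := by omega
      exact (hcl a b h3.1 h3.2 hb).2.2 hc
    · have h3 : a < φ.length ∧ nt N (φ.getD a []) = true := by
        rcases hz' with h | h
        · omega
        · exact h.2
      have hb : b < N := by omega
      have := (hcl a b h3.1 h3.2 hb).2.1 hc
      rw [had] at this; simp at this
    · rw [ad_three rfl rfl hne] at had; simp at had

/-- From a colouring of the complement with `2 N` colours, a satisfying assignment. -/
theorem sat_of_colour {φ : Fm} {N : ℕ} (c : ℕ × ℕ → ℕ) (hc : ∀ z ∈ vs φ N, c z < 2 * N)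
    (hco : ∀ z ∈ vs φ N, ∀ w ∈ vs φ N, co φ z w = true → c z ≠ c w) : Sat φ N := by
  rw [sat_iff]
  -- vertices of the same colour are adjacent
  have hadj : ∀ z ∈ vs φ N, ∀ w ∈ vs φ N, z ≠ w → c z = c w → ad φ z w = true := by
    intro z hz w hw hne h
    by_contra h'
    rw [Bool.not_eq_true] at h'
    refine hco z hz w hw ?_ h
    unfold co
    simp [hne, h']
  have hm : ∀ t < 3, ∀ i < N, ((t, i) : ℕ × ℕ) ∈ vs φ N := fun t ht i hi =>
    mem_vs.2 (Or.inl ⟨ht, hi⟩)
  -- the colours of the literal vertices are distinct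
  let F : Fin N × Bool → Fin (2 * N) := fun x =>
    if x.2 then ⟨c (0, x.1), hc _ (hm 0 (by omega) _ x.1.isLt)⟩
    else ⟨c (2, x.1), hc _ (hm 2 (by omega) _ x.1.isLt)⟩
  have hFinj : Function.Injective F := by
    rintro ⟨i, s⟩ ⟨j, t⟩ h
    have h0i := hm 0 (by omega) _ i.isLt
    have h2i := hm 2 (by omega) _ i.isLt
    have h0j := hm 0 (by omega) _ j.isLt
    have h2j := hm 2 (by omega) _ j.isLt
    cases s <;> cases t
    · simp only [F, Bool.false_eq_true, ↓reduceIte, Fin.mk.injEq] at h
      by_contra hne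
      have hij : ((2, (i : ℕ)) : ℕ × ℕ) ≠ (2, (j : ℕ)) := by
        intro he
        simp only [Prod.mk.injEq, true_and] at he
        exact hne (by rw [Fin.ext he])
      rcases ad_two (hadj _ h2i _ h2j hij h) with h | h <;> simp at h
    · simp only [F, Bool.false_eq_true, ↓reduceIte, Fin.mk.injEq] at h
      rcases ad_two (hadj _ h2i _ h0j (by simp) h) with h | h <;> simp at h
    · simp only [F, Bool.false_eq_true, ↓reduceIte, Fin.mk.injEq] at h
      rcases ad_zero (hadj _ h0i _ h2j (by simp) h) with h | h <;> simp at h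
    · simp only [F, ↓reduceIte, Fin.mk.injEq] at h
      by_contra hne
      have hij : ((0, (i : ℕ)) : ℕ × ℕ) ≠ (0, (j : ℕ)) := by
        intro he
        simp only [Prod.mk.injEq, true_and] at he
        exact hne (by rw [Fin.ext he])
      rcases ad_zero (hadj _ h0i _ h0j hij h) with h | h <;> simp at h
  have hFsurj : Function.Surjective F := by
    refine ((Fintype.bijective_iff_injective_and_card F).2 ⟨hFinj, ?_⟩).2
    simp [mul_comm]
  -- every vertex has the colour of a literal vertex
  have hcov : ∀ z ∈ vs φ N, ∃ i < N, c z = c (0, i) ∨ c z = c (2, i) := by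
    intro z hz
    obtain ⟨⟨i, s⟩, h⟩ := hFsurj ⟨c z, hc z hz⟩
    refine ⟨i, i.isLt, ?_⟩
    cases s
    · simp only [F, Bool.false_eq_true, ↓reduceIte, Fin.mk.injEq] at h
      exact Or.inr h.symm
    · simp only [F, ↓reduceIte, Fin.mk.injEq] at h
      exact Or.inl h.symm
  -- the middle vertex has the colour of one of the two literal vertices
  have hmid : ∀ i < N, c (1, i) = c (0, i) ∨ c (1, i) = c (2, i) := by
    intro i hi
    obtain ⟨j, hj, h | h⟩ := hcov _ (hm 1 (by omega) i hi)
    · rcases ad_one (hadj _ (hm 1 (by omega) i hi) _ (hm 0 (by omega) j hj) (by simp) h) with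
        h1 | h1
      · rw [h1] at h; exact Or.inl h
      · simp at h1
    · rcases ad_one (hadj _ (hm 1 (by omega) i hi) _ (hm 2 (by omega) j hj) (by simp) h) with
        h1 | h1
      · simp at h1
      · rw [h1] at h; exact Or.inr h
  refine ⟨fun i => decide (c (1, i) = c (2, i)), fun j hj hnt => ?_⟩
  have hz : ((3, j) : ℕ × ℕ) ∈ vs φ N := mem_vs.2 (Or.inr ⟨rfl, hj, hnt⟩)
  obtain ⟨i, hi, h | h⟩ := hcov _ hz
  · have h1 := hadj _ (hm 0 (by omega) i hi) _ hz (by simp) h.symm
    rcases ad_zero h1 with h2 | ⟨_, h2⟩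
    · simp at h2
    · refine ⟨_, h2, hi, ?_⟩
      simp only [decide_eq_true_eq]
      rcases hmid i hi with h3 | h3
      · exfalso
        have h4 := hadj _ (hm 1 (by omega) i hi) _ hz (by simp) (h3.trans h.symm)
        rcases ad_one h4 with h5 | h5 <;> simp at h5
      · exact h3
  · have h1 := hadj _ (hm 2 (by omega) i hi) _ hz (by simp) h.symm
    rcases ad_two h1 with h2 | ⟨_, h2⟩
    · simp at h2
    · refine ⟨_, h2, hi, ?_⟩
      simp only [decide_eq_false_iff_not]
      intro h3
      have h4 := hadj _ (hm 1 (by omega) i hi) _ hz (by simp) (h3.trans h.symm)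
      rcases ad_one h4 with h5 | h5 <;> simp at h5

end Pool.Agent.H257R2.EAF
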