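import Pool.Agent.NPC.Dec
import Pool.Agent.H671R2.ZDefs

/-!
# Definitions: even antiholes, the colouring problem
-/

namespace Pool.Agent.H257R2.EAF

open Pool.Agent.NPC Pool.Agent.NPC.R671

/-- `G` is even-antihole-free: it has no induced subgraph isomorphic to the complement of a cycle
of even length at least four. -/
def EvenAntiholeFree {V : Type*} (G : SimpleGraph V) : Prop :=
  ∀ m, 2 ≤ m → IsEmpty ((SimpleGraph.cycleGraph (2 * m))ᶜ ↪g G)

/-- Every antihole of `G` (induced subgraph isomorphic to the complement of a cycle of length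
`n ≥ 4`) has exactly five vertices. -/
def AntiholesAreFive {V : Type*} (G : SimpleGraph V) : Prop :=
  ∀ n, 4 ≤ n → n ≠ 5 → IsEmpty ((SimpleGraph.cycleGraph n)ᶜ ↪g G)

/-- The input, as a bit string: the adjacency matrix of the graph and the number `k`. -/
noncomputable def input {n : ℕ} (G : SimpleGraph (Fin n)) (k : ℕ) : List Bool :=
  bits (adjMatrix G, k)

/-- The decision problem COLORING: given (the adjacency matrix of) a graph and a number `k`, is the
graph `k`-colourable? -/
def Coloring (I : List (List Bool) × ℕ) : Prop :=
  ∃ (n : ℕ) (G : SimpleGraph (Fin n)), adjMatrix G = I.1 ∧ G.Colorable I.2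

/-- There is a polynomial-time algorithm that decides, for every graph `G` with the property `C`
and every `k`, whether `G` is `k`-colourable. -/
def SolvableOn (C : ∀ n : ℕ, SimpleGraph (Fin n) → Prop) : Prop :=
  ∃ A : List Bool → List Bool, PolyTime A ∧ ∀ (n : ℕ) (G : SimpleGraph (Fin n)) (k : ℕ),
    C n G → (A (input G k) = [true] ↔ G.Colorable k)

/-- `P = NP`. -/
def PEqNP : Prop := ∀ L : Set (List Bool), InNP L → InP L

end Pool.Agent.H257R2.EAF
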