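import Pool.Agent.H257R2.EAF.Defs
import Pool.Agent.H671R2.OrdNP2

/-!
# COLORING is in `NP`
-/

namespace Pool.Agent.H257R2.EAF

open Pool.Agent.NPC Pool.Agent.NPC.R671 Pool.Agent.H671R2.Ord

/-- the test of a pair of vertices -/
def tst (M : List (List Bool)) (w : List ℕ) (i j : ℕ) : Bool :=
  !(me M i j) || !(decide (w.getD i 0 = w.getD j 0))

/-- the verifier: the certificate is the list of colours -/
def R (x : (List (List Bool) × ℕ) × List ℕ) : Bool :=
  wf x.1.1 && ((decide (x.2.length = x.1.1.length) &&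
    x.2.all (fun a => decide (a < x.1.1.length) && decide (a < x.1.2))) &&
    (List.range x.2.length).all (fun i => (List.range x.2.length).all (fun j =>
      tst x.1.1 x.2 i j)))

theorem correct {n : ℕ} (G : SimpleGraph (Fin n)) (k : ℕ) :
    G.Colorable k ↔ ∃ w : List ℕ, R ((adjMatrix G, k), w) = true := by
  constructor
  · intro h
    -- a colouring with values smaller than `n` and `k`
    have h1 : ∃ c : Fin n → ℕ, (∀ i, c i < n ∧ c i < k) ∧ ∀ i j, G.Adj i j → c i ≠ c j := by
      rcases le_or_gt n k with hk | hk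
      · refine ⟨fun i => i, fun i => ⟨i.isLt, lt_of_lt_of_le i.isLt hk⟩, fun i j hij he => ?_⟩
        exact G.ne_of_adj hij (Fin.ext he)
      · obtain ⟨C⟩ := h
        refine ⟨fun i => (C i : Fin k), fun i => ⟨lt_trans (C i).isLt hk, (C i).isLt⟩, ?_⟩
        intro i j hij he
        exact C.valid hij (Fin.ext he)
    obtain ⟨c, hc, hcv⟩ := h1
    refine ⟨List.ofFn c, ?_⟩
    simp only [R, Bool.and_eq_true, decide_eq_true_eq, List.all_eq_true, List.mem_range,
      List.length_ofFn, length_adjMatrix]
    refine ⟨(wf_iff _).2 ⟨n, G, rfl⟩, ⟨trivial, ?_⟩, ?_⟩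
    · intro a ha
      rw [List.mem_ofFn] at ha
      obtain ⟨i, rfl⟩ := ha
      exact hc i
    · intro i hi j hj
      simp only [tst, Bool.or_eq_true, Bool.not_eq_true', decide_eq_false_iff_not]
      by_cases hij : G.Adj ⟨i, hi⟩ ⟨j, hj⟩
      · right
        have := hcv _ _ hij
        rw [List.getD_eq_getElem?_getD, List.getD_eq_getElem?_getD,
          List.getElem?_eq_getElem (by rw [List.length_ofFn]; exact hi),
          List.getElem?_eq_getElem (by rw [List.length_ofFn]; exact hj),
          List.getElem_ofFn, List.getElem_ofFn]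
        exact this
      · left
        have h2 := me_adj G ⟨i, hi⟩ ⟨j, hj⟩
        simp only at h2
        rw [← Bool.not_eq_true, h2]
        exact hij
  · rintro ⟨w, h⟩
    simp only [R, Bool.and_eq_true, decide_eq_true_eq, List.all_eq_true, List.mem_range,
      length_adjMatrix] at h
    obtain ⟨_, ⟨hlen, hlt⟩, htst⟩ := h
    have hl : ∀ i : Fin n, (i : ℕ) < w.length := fun i => by rw [hlen]; exact i.isLt
    refine ⟨SimpleGraph.Coloring.mk (fun i => (⟨w[(i : ℕ)]'(hl i),
      (hlt _ (List.getElem_mem _)).2⟩ : Fin k)) ?_⟩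
    intro i j hij he
    have h2 := htst i (hl i) j (hl j)
    simp only [tst, Bool.or_eq_true, Bool.not_eq_true', decide_eq_false_iff_not] at h2
    rcases h2 with h2 | h2
    · rw [← Bool.not_eq_true, me_adj G i j] at h2
      exact h2 hij
    · apply h2
      rw [List.getD_eq_getElem?_getD, List.getD_eq_getElem?_getD,
        List.getElem?_eq_getElem (hl i), List.getElem?_eq_getElem (hl j)]
      exact congrArg Fin.val he

/-- certificates are short -/
theorem cert_short {x : List (List Bool) × ℕ} {w : List ℕ} (h : R (x, w) = true) :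
    sz w ≤ (4 * Polynomial.X ^ 2 + 2 * Polynomial.X + 1 : Polynomial ℕ).eval (sz x) := by
  simp only [R, Bool.and_eq_true, decide_eq_true_eq, List.all_eq_true, List.mem_range] at h
  obtain ⟨_, ⟨h4, hlt⟩, _⟩ := h
  have hsz : ∀ a ∈ w, sz a ≤ 4 * x.1.length + 1 := by
    intro a ha
    have h1 := sz_nat_le a
    have h2 := Poly.size_le_self a
    have h3 := hlt a ha
    omega
  have h5 := sz_le_length_mul w _ hsz
  have h1 : x.1.length ≤ sz x := by
    obtain ⟨M, u⟩ := x
    have := length_lt_sz M
    rw [sz_pair]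
    simp only at this ⊢
    omega
  simp only [Polynomial.eval_add, Polynomial.eval_mul, Polynomial.eval_pow, Polynomial.eval_X,
    Polynomial.eval_ofNat, Polynomial.eval_one]
  rw [h4] at h5
  nlinarith

theorem tst_poly : Poly (fun x : (((List (List Bool) × ℕ) × List ℕ) × ℕ) × ℕ =>
    tst x.1.1.1.1 x.1.1.2 x.1.2 x.2) := by
  unfold tst
  fun_prop

attribute [local irreducible] tst

theorem R_poly : Poly R := by
  unfold R
  have h1 : UPoly (fun x : (List (List Bool) × ℕ) × List ℕ => x.2.length) :=
    UPoly.length (by fun_prop)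
  refine NPC.Poly.and (wf_poly.comp (by fun_prop)) (NPC.Poly.and (by fun_prop) ?_)
  exact all2_poly (α := (List (List Bool) × ℕ) × List ℕ) (m := fun x => x.2.length) h1
    (F := fun x i j => tst x.1.1 x.2 i j) tst_poly

theorem coloring_iff (x : List (List Bool) × ℕ) :
    Coloring x ↔ ∃ w : List ℕ, R (x, w) = true := by
  constructor
  · rintro ⟨n, G, h, hc⟩
    obtain ⟨w, hw⟩ := (correct G x.2).1 hc
    rw [h] at hw
    exact ⟨w, hw⟩
  · rintro ⟨w, hw⟩
    have h1 : wf x.1 = true := by
      simp only [R, Bool.and_eq_true] at hw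
      exact hw.1
    obtain ⟨n, G, h⟩ := (wf_iff _).1 h1
    refine ⟨n, G, h, (correct G x.2).2 ⟨w, ?_⟩⟩
    rw [h]
    exact hw

/-- COLORING is in `NP`. -/
theorem inNPP_coloring : InNPP Coloring := by
  refine inNPP_of (R := R) R_poly (4 * Polynomial.X ^ 2 + 2 * Polynomial.X + 1) ?_
  intro x
  rw [coloring_iff]
  exact exists_congr fun w => ⟨fun h => ⟨cert_short h, h⟩, fun h => h.2⟩

/-- If `P = NP` then COLORING is solvable in polynomial time. -/
theorem solvable_of (h : PEqNP) : SolvableOn (fun _ _ => True) := by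
  obtain ⟨A, hA, hA'⟩ := h _ inNPP_coloring
  refine ⟨A, hA, fun n G k _ => ?_⟩
  rw [← hA', correct]
  unfold input
  rw [bits_mem_lang, coloring_iff]

end Pool.Agent.H257R2.EAF
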