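import Pool.Agent.H257R2.EAF.Comb
import Pool.Agent.H257R2.EAF.NP
import Pool.Agent.H671R2.BSat
import Pool.Agent.H671R2.GraphEnc
import Pool.Agent.H642R2.TMSim

/-!
# The reduction
-/

namespace Pool.Agent.H257R2.EAF

open Pool.Agent.NPC Pool.Agent.NPC.R671

/-- the graph of a formula: the complement of the graph `ad φ` -/
def gr (φ : Fm) : SimpleGraph (Fin (vs φ φ.flatten.length).length) :=
  listGraph (vs φ φ.flatten.length) (co φ) (co_symm φ) (co_irrefl φ)

theorem gr_matrix (φ : Fm) : adjMatrix (gr φ) = (vs φ φ.flatten.length).map (fun u =>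
    (vs φ φ.flatten.length).map (fun w => co φ u w)) := adjMatrix_listGraph _ _ _ _

theorem vs_nodup (φ : Fm) (N : ℕ) : (vs φ N).Nodup := by
  unfold vs
  have hr : ∀ {t : ℕ} {l : List ℕ}, l.Nodup → (l.map (fun i => ((t, i) : ℕ × ℕ))).Nodup :=
    fun h => h.map (fun a b h => by simpa using h)
  simp only [List.nodup_append]
  refine ⟨hr List.nodup_range, ⟨hr List.nodup_range, ⟨hr List.nodup_range,
    hr (List.nodup_range.filter _), ?_⟩, ?_⟩, ?_⟩
  all_goals
    simp only [List.mem_append, List.mem_map]
    intro a ha b hb hab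
    subst hab
    obtain ⟨i, _, rfl⟩ := ha
    simp at hb

/-- the antiholes of the graph have five vertices -/
theorem gr_antiholes (φ : Fm) : AntiholesAreFive (gr φ) := by
  intro n hn hn5
  refine ⟨fun e => hn5 ?_⟩
  set V := vs φ φ.flatten.length with hV
  have hinj : ∀ i j : Fin n, V[(e i : Fin V.length)] = V[(e j : Fin V.length)] → i = j := by
    intro i j h
    exact e.injective (Fin.ext ((List.Nodup.getElem_inj_iff (vs_nodup φ _)).1 h))
  let g : ℕ → ℕ × ℕ := fun i => if h : i < n then V[(e ⟨i, h⟩ : Fin V.length)] else (0, 0)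
  have hg : ∀ i (h : i < n), g i = V[(e ⟨i, h⟩ : Fin V.length)] := fun i h => dif_pos h
  refine hole_five (φ := φ) (N := φ.flatten.length) hn g ?_ ?_ ?_
  · intro i hi
    rw [hg i hi]
    exact List.getElem_mem _
  · intro i hi j hj h
    rw [hg i hi, hg j hj] at h
    exact congrArg Fin.val (hinj _ _ h)
  · intro i hi j hj
    by_cases hij : i = j
    · subst hij
      have h1 : ad φ (g i) (g i) = false := by
        refine ad_irrefl (N := φ.flatten.length) ?_
        rw [hg i hi]
        exact List.getElem_mem _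
      rw [h1]
      have c1 := nx_cases hi
      constructor
      · intro h; simp at h
      · intro h; exfalso; omega
    · have hne : (⟨i, hi⟩ : Fin n) ≠ ⟨j, hj⟩ := fun h => hij (congrArg Fin.val h)
      have hgne : g i ≠ g j := by
        intro h
        rw [hg i hi, hg j hj] at h
        exact hne (hinj _ _ h)
      have h1 := e.map_adj_iff (v := ⟨i, hi⟩) (w := ⟨j, hj⟩)
      rw [SimpleGraph.compl_adj, cycleGraph_adj_nx (by omega)] at h1
      have h2 : (gr φ).Adj (e ⟨i, hi⟩) (e ⟨j, hj⟩) ↔ co φ (g i) (g j) = true := by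
        rw [hg i hi, hg j hj]
        rfl
      rw [h2] at h1
      unfold co at h1
      simp only [Bool.and_eq_true, Bool.not_eq_true', decide_eq_false_iff_not] at h1
      have h3 : ad φ (g i) (g j) = false ↔ ¬ (i = nx n j ∨ j = nx n i) := by
        constructor
        · intro h
          exact (h1.1 ⟨hgne, h⟩).2
        · intro h
          exact (h1.2 ⟨hne, h⟩).2
      rw [← not_iff_not, ← h3, Bool.not_eq_true]

/-- satisfiability and colourability -/
theorem gr_colorable (φ : Fm) : BSat φ ↔ (gr φ).Colorable (2 * φ.flatten.length) := by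
  have hS : BSat φ ↔ Sat φ φ.flatten.length := Iff.rfl
  rw [hS]
  set V := vs φ φ.flatten.length with hV
  constructor
  · intro h
    obtain ⟨c, hc, hco⟩ := colour_of_sat h
    refine ⟨SimpleGraph.Coloring.mk (fun i => (⟨c V[i], hc _ (List.getElem_mem _)⟩ :
      Fin (2 * φ.flatten.length))) ?_⟩
    intro i j hij he
    exact hco _ (List.getElem_mem _) _ (List.getElem_mem _) hij (congrArg Fin.val he)
  · rintro ⟨C⟩
    have hex : ∀ z ∈ V, ∃ i : Fin V.length, V[i] = z := by
      intro z hz
      obtain ⟨i, hi, h⟩ := List.getElem_of_mem hz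
      exact ⟨⟨i, hi⟩, h⟩
    choose v hv using hex
    refine sat_of_colour (fun z => if h : z ∈ V then ((C (v z h) : Fin _) : ℕ) else 0)
      (fun z hz => ?_) (fun z hz w hw h he => ?_)
    · rw [dif_pos hz]
      exact (C (v z hz)).isLt
    · rw [dif_pos hz, dif_pos hw] at he
      have hadj : (gr φ).Adj (v z hz) (v w hw) := by
        change co φ V[v z hz] V[v w hw] = true
        rw [hv z hz, hv w hw]
        exact h
      exact C.valid hadj (Fin.ext he)

/-! ### Polynomial time -/

theorem ad0_poly : Poly (fun x : Fm × (ℕ × ℕ) × (ℕ × ℕ) => ad0 x.1 x.2.1 x.2.2) := by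
  unfold ad0
  fun_prop

attribute [local irreducible] ad0

theorem ad_poly : Poly (fun x : Fm × (ℕ × ℕ) × (ℕ × ℕ) => ad x.1 x.2.1 x.2.2) := by
  unfold ad
  exact Poly.or ad0_poly (ad0_poly.comp (Poly.pair (Poly.fst Poly.id)
    (Poly.pair (Poly.snd (Poly.snd Poly.id)) (Poly.fst (Poly.snd Poly.id)))))

attribute [local irreducible] ad

theorem co_poly : Poly (fun x : Fm × (ℕ × ℕ) × (ℕ × ℕ) => co x.1 x.2.1 x.2.2) := by
  unfold co
  exact Poly.and (by fun_prop) (Poly.not ad_poly)

attribute [local irreducible] co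

theorem nt_poly : Poly (fun x : Fm × ℕ => nt x.1.flatten.length (x.1.getD x.2 [])) := by
  unfold nt
  fun_prop

attribute [local irreducible] nt

theorem vs_poly : Poly (fun φ : Fm => vs φ φ.flatten.length) := by
  have h1 : UPoly (fun φ : Fm => φ.flatten.length) := UPoly.length (by fun_prop)
  have h2 : UPoly (fun φ : Fm => φ.length) := UPoly.length (by fun_prop)
  have g1 := h1.range
  have g2 := h2.range
  have g3 : Poly (fun φ : Fm => (List.range φ.length).filter
      (fun j => nt φ.flatten.length (φ.getD j []))) :=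
    NPC.Poly.filter (l := fun φ : Fm => List.range φ.length)
      (p := fun φ j => nt φ.flatten.length (φ.getD j [])) g2 nt_poly
  unfold vs
  refine NPC.Poly.append (by fun_prop) ?_
  refine NPC.Poly.append (by fun_prop) ?_
  refine NPC.Poly.append (by fun_prop) ?_
  fun_prop

attribute [local irreducible] vs

theorem adj_poly : Poly (fun φ : Fm => (vs φ φ.flatten.length).map (fun u =>
    (vs φ φ.flatten.length).map (fun w => co φ u w))) :=
  NPC.Poly.map vs_poly (F := fun φ u => (vs φ φ.flatten.length).map (fun w => co φ u w))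
    (NPC.Poly.map (l := fun x : Fm × (ℕ × ℕ) => vs x.1 x.1.flatten.length)
      (F := fun x w => co x.1 x.2 w) (vs_poly.comp (Poly.fst Poly.id))
      (co_poly.comp (Poly.pair (Poly.fst (Poly.fst Poly.id))
        (Poly.pair (Poly.snd (Poly.fst Poly.id)) (Poly.snd Poly.id)))))

/-- Every language in `NP` is reduced, in polynomial time, to the colouring problem for graphs all
whose antiholes have exactly five vertices. -/
theorem hard (L : Set (List Bool)) (hL : InNP L) :
    ∃ f : List Bool → List Bool, PolyTime f ∧ ∀ w, ∃ (n : ℕ) (G : SimpleGraph (Fin n)) (k : ℕ),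
      f w = input G k ∧ AntiholesAreFive G ∧ (w ∈ L ↔ G.Colorable k) := by
  obtain ⟨g, hg, hgL⟩ := hardI_BSat L hL
  have hp : Poly (fun φ : Fm => (((vs φ φ.flatten.length).map (fun u =>
      (vs φ φ.flatten.length).map (fun w => co φ u w)), 2 * φ.flatten.length) :
        List (List Bool) × ℕ)) :=
    NPC.Poly.pair adj_poly (by fun_prop)
  refine ⟨fun w => bits (((vs (g w) (g w).flatten.length).map (fun u =>
      (vs (g w) (g w).flatten.length).map (fun z => co (g w) u z)), 2 * (g w).flatten.length) :
        List (List Bool) × ℕ), PC.toPolyTime_bits hp g hg, fun w => ?_⟩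
  refine ⟨_, gr (g w), 2 * (g w).flatten.length, ?_, gr_antiholes _, ?_⟩
  · unfold input
    rw [gr_matrix]
  · rw [← gr_colorable, hgL w]

theorem evenAntiholeFree_of {V : Type*} {G : SimpleGraph V} (h : AntiholesAreFive G) :
    EvenAntiholeFree G := fun m hm => h (2 * m) (by omega) (by omega)

/-- restricting an algorithm to a smaller class -/
theorem SolvableOn.mono {C D : ∀ n : ℕ, SimpleGraph (Fin n) → Prop}
    (h : ∀ n G, C n G → D n G) (hD : SolvableOn D) : SolvableOn C := by
  obtain ⟨A, hA, hA'⟩ := hD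
  exact ⟨A, hA, fun n G k hC => hA' n G k (h n G hC)⟩

theorem pEqNP_of_solvable (h : SolvableOn (fun _ G => AntiholesAreFive G)) : PEqNP := by
  obtain ⟨A, hA, hA'⟩ := h
  intro L hL
  obtain ⟨f, hf, hfL⟩ := hard L hL
  refine ⟨fun w => A (f w), Pool.Agent.H642R2.TMSim.polyTime_comp hA hf, fun w => ?_⟩
  obtain ⟨n, G, k, h1, h2, h3⟩ := hfL w
  change w ∈ L ↔ A (f w) = [true]
  rw [h3, h1, hA' n G k h2]

end Pool.Agent.H257R2.EAF
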